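import Pool.Agent.H43.DPC.Targets

/-! Row LAT of the board `dpc_modules`: the lattice partition of unity. -/

open MeasureTheory SchwartzMap Filter Topology
open scoped ENNReal ContDiff

namespace Pool.Agent.H43.DPC

/-- the one dimensional bump -/
noncomputable def LAT_u (t : ℝ) : ℝ := Real.smoothTransition (t + 1) - Real.smoothTransition t

theorem LAT_u_nonneg (t : ℝ) : 0 ≤ LAT_u t := by
  unfold LAT_u
  rcases le_total t 0 with h | h
  · rw [Real.smoothTransition.zero_of_nonpos h, sub_zero]
    exact Real.smoothTransition.nonneg _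
  · rw [Real.smoothTransition.one_of_one_le (x := t + 1) (by linarith)]
    linarith [Real.smoothTransition.le_one t]

theorem LAT_u_zero {t : ℝ} (h : 1 < |t|) : LAT_u t = 0 := by
  unfold LAT_u
  rcases le_total t 0 with h1 | h1
  · rw [abs_of_nonpos h1] at h
    rw [Real.smoothTransition.zero_of_nonpos h1,
      Real.smoothTransition.zero_of_nonpos (x := t + 1) (by linarith), sub_zero]
  · rw [abs_of_nonneg h1] at h
    rw [Real.smoothTransition.one_of_one_le (x := t + 1) (by linarith),
      Real.smoothTransition.one_of_one_le h.le, sub_self]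

theorem LAT_cell (d : ℕ) (t : ℝ) (k : Fin d → ℤ) (x : V d) :
    cell t k x = ∏ j, LAT_u (t⁻¹ * x j - k j) := by
  simp [cell, chi, LAT_u, lat]

theorem LAT_contDiff (d : ℕ) (t : ℝ) (k : Fin d → ℤ) : ContDiff ℝ ∞ (cell t k) := by
  have h1 : (cell t k : V d → ℝ) = fun x => ∏ j, LAT_u (t⁻¹ * x j - k j) :=
    funext fun x => LAT_cell d t k x
  rw [h1]
  refine contDiff_prod fun j _ => ?_
  have h2 : ContDiff ℝ ∞ (fun x : V d => x j) := by fun_prop
  have h3 : ContDiff ℝ ∞ (fun x : V d => t⁻¹ * x j - k j) :=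
    (contDiff_const.mul h2).sub contDiff_const
  unfold LAT_u
  exact (Real.smoothTransition.contDiff.comp (h3.add contDiff_const)).sub
    (Real.smoothTransition.contDiff.comp h3)

theorem LAT_support (d : ℕ) (t : ℝ) (ht : 0 < t) (k : Fin d → ℤ) (x : V d)
    (hx : cell t k x ≠ 0) (j : Fin d) : |x j - t * k j| ≤ t := by
  by_contra h
  push Not at h
  apply hx
  rw [LAT_cell]
  refine Finset.prod_eq_zero (Finset.mem_univ j) (LAT_u_zero ?_)
  have h1 : t⁻¹ * x j - k j = t⁻¹ * (x j - t * k j) := by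
    field_simp
  rw [h1, abs_mul, abs_of_pos (inv_pos.2 ht)]
  rw [lt_inv_mul_iff₀ ht, mul_one]
  exact h

theorem LAT_tsupport (d : ℕ) (t : ℝ) (ht : 0 < t) (k : Fin d → ℤ) (x : V d)
    (hx : x ∈ tsupport (cell t k)) (j : Fin d) : |x j - t * k j| ≤ t := by
  have hc : IsClosed {x : V d | |x j - t * k j| ≤ t} :=
    isClosed_le (by fun_prop) continuous_const
  exact closure_minimal (fun y hy => LAT_support d t ht k y hy j) hc hx

theorem LAT_compact (d : ℕ) (t : ℝ) (ht : 0 < t) (k : Fin d → ℤ) :
    HasCompactSupport (cell t k) := by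
  have hK : IsCompact ((EuclideanSpace.equiv (Fin d) ℝ).toHomeomorph ⁻¹'
      (Set.pi Set.univ fun j => Set.Icc (t * k j - t) (t * k j + t))) :=
    (EuclideanSpace.equiv (Fin d) ℝ).toHomeomorph.isCompact_preimage.2
      (isCompact_univ_pi fun j => isCompact_Icc)
  refine HasCompactSupport.intro hK fun x hx => ?_
  by_contra h
  apply hx
  intro j _
  have h1 := abs_le.1 (LAT_support d t ht k x h j)
  show x j ∈ Set.Icc _ _
  exact ⟨by linarith [h1.1], by linarith [h1.2]⟩

theorem LAT_tele (y : ℝ) (K : ℕ) : ∑ k ∈ Finset.Icc (-(K : ℤ)) K, LAT_u (y - k) =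
    Real.smoothTransition (y + K + 1) - Real.smoothTransition (y - K) := by
  induction K with
  | zero => simp [LAT_u]
  | succ K ih =>
    have h1 : Finset.Icc (-((K + 1 : ℕ) : ℤ)) ((K + 1 : ℕ) : ℤ) =
        insert (-((K : ℤ) + 1)) (insert ((K : ℤ) + 1) (Finset.Icc (-(K : ℤ)) K)) := by
      ext z
      simp only [Finset.mem_Icc, Finset.mem_insert]
      push_cast
      omega
    rw [h1, Finset.sum_insert, Finset.sum_insert, ih]
    · simp only [LAT_u]
      push_cast
      have e1 : y - (-((K : ℝ) + 1)) + 1 = y + (K + 1) + 1 := by ring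
      have e2 : y - (-((K : ℝ) + 1)) = y + K + 1 := by ring
      have e3 : y - ((K : ℝ) + 1) + 1 = y - K := by ring
      rw [e1, e2, e3]
      ring
    · simp only [Finset.mem_Icc]; omega
    · simp only [Finset.mem_Icc, Finset.mem_insert]; omega

theorem LAT_sum (d : ℕ) (t : ℝ) (K : ℕ) (x : V d) : ∑ k ∈ box d K, cell t k x =
    ∏ j, (Real.smoothTransition (t⁻¹ * x j + K + 1) -
      Real.smoothTransition (t⁻¹ * x j - K)) := by
  simp only [LAT_cell]
  rw [box, ← Finset.prod_univ_sum (t := fun _ : Fin d => Finset.Icc (-(K : ℤ)) K)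
    (f := fun j k => LAT_u (t⁻¹ * x j - (k : ℤ)))]
  exact Finset.prod_congr rfl fun j _ => LAT_tele _ K

theorem LAT_cut_apply (d : ℕ) (t : ℝ) (ht : 0 < t) (k : Fin d → ℤ) (f : S d) (x : V d) :
    cut t k f x = cell t k x * f x := by
  unfold cut
  rw [smulLeftCLM_apply_apply ((LAT_compact d t ht k).hasTemperateGrowth (LAT_contDiff d t k))]
  rfl

theorem LAT_sum_eq_one (d m R : ℕ) (x : V d) (hx : ∀ j, |x j| ≤ R) :
    ∑ k ∈ box d (R * (m + 1)), cell ((m + 1 : ℝ)⁻¹) k x = 1 := by
  rw [LAT_sum]
  refine Finset.prod_eq_one fun j _ => ?_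
  have hm : (0 : ℝ) < m + 1 := by positivity
  have h1 := abs_le.1 (hx j)
  rw [inv_inv]
  push_cast
  have h2 : -((R : ℝ) * (m + 1)) ≤ (m + 1) * x j := by nlinarith [h1.1]
  have h3 : ((m : ℝ) + 1) * x j ≤ R * (m + 1) := by nlinarith [h1.2]
  rw [Real.smoothTransition.one_of_one_le (by linarith),
    Real.smoothTransition.zero_of_nonpos (by linarith), sub_zero]

theorem LAT : T_LAT where
  contDiff := LAT_contDiff
  compact := LAT_compact
  nonneg := fun d t k x => by
    rw [LAT_cell]
    exact Finset.prod_nonneg fun j _ => LAT_u_nonneg _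
  tsupport := LAT_tsupport
  cut_apply := LAT_cut_apply
  sum_le_one := fun d t K x => by
    rw [LAT_sum]
    refine Finset.prod_le_one (fun j _ => ?_) fun j _ => ?_
    · rw [← LAT_tele]
      exact Finset.sum_nonneg fun k _ => LAT_u_nonneg _
    · linarith [Real.smoothTransition.le_one (t⁻¹ * x j + K + 1),
        Real.smoothTransition.nonneg (t⁻¹ * x j - K)]
  sum_eq_one := LAT_sum_eq_one
  sum_cut := fun d m R f hf => by
    ext x
    have h1 : (∑ k ∈ box d (R * (m + 1)), cut ((m + 1 : ℝ)⁻¹) k f) x =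
        ∑ k ∈ box d (R * (m + 1)), cut ((m + 1 : ℝ)⁻¹) k f x := by
      simp only [SchwartzMap.sum_apply]
    rw [h1]
    simp only [LAT_cut_apply d _ (inv_pos.2 (by positivity : (0 : ℝ) < m + 1))]
    rw [← Finset.sum_mul]
    by_cases hx : f x = 0
    · rw [hx, mul_zero]
    · rw [LAT_sum_eq_one d m R x (hf x hx), one_mul]
  near_symm := fun d k l h j => by
    rw [abs_sub_comm]
    exact h j
  near_card := fun d K k => by
    have h1 : (box d K).filter (Near k) ⊆
        Fintype.piFinset fun j => Finset.Icc (k j - 2) (k j + 2) := by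
      intro l hl
      rw [Fintype.mem_piFinset]
      intro j
      have h2 := abs_le.1 ((Finset.mem_filter.1 hl).2 j)
      rw [Finset.mem_Icc]
      omega
    refine (Finset.card_le_card h1).trans ?_
    rw [Fintype.card_piFinset]
    have h2 : ∀ j : Fin d, (Finset.Icc (k j - 2) (k j + 2)).card = 5 := fun j => by
      rw [Int.card_Icc]; omega
    simp [h2]
  box_card := fun d K => by
    rw [box, Fintype.card_piFinset]
    have h2 : (Finset.Icc (-(K : ℤ)) K).card = 2 * K + 1 := by
      rw [Int.card_Icc]; omega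
    simp [h2]
  disjoint := fun d t ht k l hkl => by
    rw [Set.disjoint_left]
    intro x hk hl
    apply hkl
    intro j
    have h1 := LAT_tsupport d t ht k x hk j
    have h2 := LAT_tsupport d t ht l x hl j
    have h3 : |t * ((k j : ℝ) - l j)| ≤ 2 * t := by
      have h4 : t * ((k j : ℝ) - l j) = (x j - t * l j) - (x j - t * k j) := by ring
      rw [h4]
      have h5 := abs_sub (x j - t * l j) (x j - t * k j)
      linarith
    rw [abs_mul, abs_of_pos ht, mul_comm] at h3
    have h4 : |(k j : ℝ) - l j| ≤ 2 := le_of_mul_le_mul_right h3 ht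
    exact_mod_cast h4

end Pool.Agent.H43.DPC
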