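import Pool.Agent.H43.DPC.Targets

/-! Row CUT of the board `dpc_modules`: cutoffs in the Schwartz space. -/

open MeasureTheory SchwartzMap Filter Topology
open scoped ENNReal ContDiff

namespace Pool.Agent.H43.DPC

noncomputable section

/-- the bump function -/
def CUT_th (d : ℕ) : ContDiffBump (0 : V d) := ⟨1, 2, one_pos, one_lt_two⟩

/-- the complement of the bump -/
def CUT_W (d : ℕ) (y : V d) : ℝ := 1 - CUT_th d y

theorem CUT_W_contDiff (d : ℕ) : ContDiff ℝ ∞ (CUT_W d) :=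
  contDiff_const.sub (CUT_th d).contDiff

theorem CUT_W_bound (d i : ℕ) : ∃ A : ℝ, 0 ≤ A ∧ ∀ y, ‖iteratedFDeriv ℝ i (CUT_W d) y‖ ≤ A := by
  have hth : ContDiff ℝ ∞ (CUT_th d : V d → ℝ) := (CUT_th d).contDiff
  have hcs : HasCompactSupport (CUT_th d : V d → ℝ) := (CUT_th d).hasCompactSupport
  let thS : S d := hcs.toSchwartzMap hth
  have h1 : ∀ y, ‖iteratedFDeriv ℝ i (CUT_th d : V d → ℝ) y‖ ≤ SchwartzMap.seminorm ℝ 0 i thS :=
    fun y => norm_iteratedFDeriv_le_seminorm ℝ thS i y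
  have h2 : ∀ y : V d, ‖iteratedFDeriv ℝ i (fun _ : V d => (1 : ℝ)) y‖ ≤ 1 := by
    intro y
    rcases Nat.eq_zero_or_pos i with h | h
    · subst h
      rw [norm_iteratedFDeriv_zero]
      simp
    · rw [iteratedFDeriv_const_of_ne h.ne']
      simp
  refine ⟨1 + SchwartzMap.seminorm ℝ 0 i thS, add_nonneg zero_le_one (apply_nonneg _ _),
    fun y => ?_⟩
  have h3 : CUT_W d = (fun _ : V d => (1 : ℝ)) - (CUT_th d : V d → ℝ) := rfl
  rw [h3, iteratedFDeriv_sub_apply (contDiff_const.contDiffAt)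
    ((hth.of_le (WithTop.coe_le_coe.2 le_top)).contDiffAt)]
  exact (norm_sub_le _ _).trans (add_le_add (h2 y) (h1 y))

theorem CUT_W_zero (d i : ℕ) (y : V d) (hy : ‖y‖ < 1) : iteratedFDeriv ℝ i (CUT_W d) y = 0 := by
  by_contra h
  have h1 : y ∈ tsupport (CUT_W d) := support_iteratedFDeriv_subset i h
  have h2 : tsupport (CUT_W d) ⊆ {y : V d | 1 ≤ ‖y‖} := by
    refine closure_minimal (fun z hz => ?_) (isClosed_le continuous_const continuous_norm)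
    by_contra hz2
    have hz3 : ‖z‖ ≤ 1 := (not_le.1 hz2).le
    apply hz
    have h4 : CUT_th d z = 1 := (CUT_th d).one_of_mem_closedBall (by
      rw [mem_closedBall_zero_iff]; exact hz3)
    show 1 - CUT_th d z = 0
    rw [h4, sub_self]
  exact absurd (h2 h1) (not_le.2 hy)

/-- the rescaled bump -/
def CUT_chi (d m : ℕ) (x : V d) : ℝ := CUT_th d ((m + 1 : ℝ)⁻¹ • x)

theorem CUT_chi_contDiff (d m : ℕ) : ContDiff ℝ ∞ (CUT_chi d m) :=
  (CUT_th d).contDiff.comp (contDiff_id.const_smul _)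

theorem CUT_chi_compact (d m : ℕ) : HasCompactSupport (CUT_chi d m) := by
  have hm : (0 : ℝ) < m + 1 := by positivity
  refine HasCompactSupport.intro (isCompact_closedBall (0 : V d) (2 * (m + 1))) fun x hx => ?_
  refine (CUT_th d).zero_of_le_dist ?_
  rw [dist_zero_right, norm_smul, norm_inv, Real.norm_of_nonneg hm.le]
  rw [mem_closedBall_zero_iff, not_le] at hx
  show (2 : ℝ) ≤ _
  rw [le_inv_mul_iff₀ hm]
  linarith

/-- the cutoff -/
def CUT_theta (d m : ℕ) (f : S d) : S d := smulLeftCLM ℝ (CUT_chi d m) f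

theorem CUT_theta_apply (d m : ℕ) (f : S d) (x : V d) :
    CUT_theta d m f x = CUT_chi d m x * f x := by
  unfold CUT_theta
  rw [smulLeftCLM_apply_apply
    ((CUT_chi_compact d m).hasTemperateGrowth (CUT_chi_contDiff d m))]
  rfl

theorem CUT_seminorm (d k l : ℕ) (f : S d) : ∃ C : ℝ, 0 ≤ C ∧ ∀ m : ℕ,
    SchwartzMap.seminorm ℝ k l (CUT_theta d m f - f) ≤ C * (m + 1 : ℝ)⁻¹ := by
  choose A hA0 hA using CUT_W_bound d
  refine ⟨∑ i ∈ Finset.range (l + 1), (l.choose i : ℝ) * A i *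
    SchwartzMap.seminorm ℝ (k + 1) (l - i) f, Finset.sum_nonneg fun i _ =>
      mul_nonneg (mul_nonneg (Nat.cast_nonneg _) (hA0 i)) (apply_nonneg _ _), fun m => ?_⟩
  have hm : (0 : ℝ) < m + 1 := by positivity
  have hε : (0 : ℝ) < (m + 1 : ℝ)⁻¹ := inv_pos.2 hm
  have hε1 : (m + 1 : ℝ)⁻¹ ≤ 1 := inv_le_one_of_one_le₀ (by linarith [Nat.cast_nonneg (α := ℝ) m])
  have hC0 : 0 ≤ ∑ i ∈ Finset.range (l + 1), (l.choose i : ℝ) * A i *
      SchwartzMap.seminorm ℝ (k + 1) (l - i) f := Finset.sum_nonneg fun i _ =>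
    mul_nonneg (mul_nonneg (Nat.cast_nonneg _) (hA0 i)) (apply_nonneg _ _)
  have hneg : SchwartzMap.seminorm ℝ k l (CUT_theta d m f - f) =
      SchwartzMap.seminorm ℝ k l (f - CUT_theta d m f) := map_sub_rev _ _ _
  rw [hneg]
  refine SchwartzMap.seminorm_le_bound ℝ k l _ (mul_nonneg hC0 hε.le) fun x => ?_
  have hfun : (⇑(f - CUT_theta d m f) : V d → ℝ) =
      fun x => (fun x => CUT_W d ((m + 1 : ℝ)⁻¹ • x)) x • f x := by
    funext x
    show f x - CUT_theta d m f x = (1 - CUT_th d ((m + 1 : ℝ)⁻¹ • x)) * f x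
    rw [CUT_theta_apply]
    show f x - CUT_th d ((m + 1 : ℝ)⁻¹ • x) * f x = _
    ring
  rw [hfun]
  have hWc : ContDiff ℝ ∞ (fun x : V d => CUT_W d ((m + 1 : ℝ)⁻¹ • x)) :=
    (CUT_W_contDiff d).comp (contDiff_id.const_smul _)
  have h1 := norm_iteratedFDeriv_smul_le (𝕜 := ℝ) hWc f.smooth' x (n := l)
    (WithTop.coe_le_coe.2 le_top)
  have hD : ∀ i, iteratedFDeriv ℝ i (fun x : V d => CUT_W d ((m + 1 : ℝ)⁻¹ • x)) x =
      ((m + 1 : ℝ)⁻¹) ^ i • iteratedFDeriv ℝ i (CUT_W d) ((m + 1 : ℝ)⁻¹ • x) := by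
    intro i
    have hs : ContDiff ℝ (i : ℕ∞ω) (CUT_W d) :=
      (CUT_W_contDiff d).of_le (WithTop.coe_le_coe.2 le_top)
    exact congrFun (iteratedFDeriv_comp_const_smul (𝕜 := ℝ) (i := i) ((m + 1 : ℝ)⁻¹) hs) x
  by_cases hx : ‖(m + 1 : ℝ)⁻¹ • x‖ < 1
  · have h2 : ‖iteratedFDeriv ℝ l (fun x => (fun x => CUT_W d ((m + 1 : ℝ)⁻¹ • x)) x • f x) x‖
        ≤ 0 := by
      refine h1.trans (le_of_eq (Finset.sum_eq_zero fun i _ => ?_))
      rw [hD, CUT_W_zero d i _ hx, smul_zero, norm_zero, mul_zero, zero_mul]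
    have h3 := le_antisymm h2 (norm_nonneg _)
    rw [h3, mul_zero]
    exact mul_nonneg hC0 hε.le
  · rw [not_lt, norm_smul, Real.norm_of_nonneg hε.le] at hx
    have hk : ‖x‖ ^ k ≤ (m + 1 : ℝ)⁻¹ * ‖x‖ ^ (k + 1) := by
      calc ‖x‖ ^ k = 1 * ‖x‖ ^ k := (one_mul _).symm
        _ ≤ ((m + 1 : ℝ)⁻¹ * ‖x‖) * ‖x‖ ^ k :=
          mul_le_mul_of_nonneg_right hx (pow_nonneg (norm_nonneg x) _)
        _ = _ := by rw [pow_succ]; ring
    refine (mul_le_mul hk h1 (norm_nonneg _) (by positivity)).trans ?_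
    rw [Finset.mul_sum, Finset.sum_mul]
    refine Finset.sum_le_sum fun i _ => ?_
    rw [hD, norm_smul, norm_pow, Real.norm_of_nonneg hε.le]
    have h4 : ((m + 1 : ℝ)⁻¹) ^ i * ‖iteratedFDeriv ℝ i (CUT_W d) ((m + 1 : ℝ)⁻¹ • x)‖ ≤ A i :=
      calc ((m + 1 : ℝ)⁻¹) ^ i * ‖iteratedFDeriv ℝ i (CUT_W d) ((m + 1 : ℝ)⁻¹ • x)‖
          ≤ 1 * A i := mul_le_mul (pow_le_one₀ hε.le hε1) (hA i _) (norm_nonneg _) zero_le_one
        _ = A i := one_mul _
    have h5 : ‖x‖ ^ (k + 1) * ‖iteratedFDeriv ℝ (l - i) f x‖ ≤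
        SchwartzMap.seminorm ℝ (k + 1) (l - i) f := SchwartzMap.le_seminorm ℝ (k + 1) (l - i) f x
    calc (m + 1 : ℝ)⁻¹ * ‖x‖ ^ (k + 1) * ((l.choose i : ℝ) *
          (((m + 1 : ℝ)⁻¹) ^ i * ‖iteratedFDeriv ℝ i (CUT_W d) ((m + 1 : ℝ)⁻¹ • x)‖) *
          ‖iteratedFDeriv ℝ (l - i) f x‖)
        = (l.choose i : ℝ) * (((m + 1 : ℝ)⁻¹) ^ i *
          ‖iteratedFDeriv ℝ i (CUT_W d) ((m + 1 : ℝ)⁻¹ • x)‖) *
          (‖x‖ ^ (k + 1) * ‖iteratedFDeriv ℝ (l - i) f x‖) * (m + 1 : ℝ)⁻¹ := by ring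
      _ ≤ (l.choose i : ℝ) * A i * SchwartzMap.seminorm ℝ (k + 1) (l - i) f *
          (m + 1 : ℝ)⁻¹ := by
        refine mul_le_mul_of_nonneg_right (mul_le_mul (mul_le_mul_of_nonneg_left h4
          (Nat.cast_nonneg _)) h5 (by positivity) (mul_nonneg (Nat.cast_nonneg _) (hA0 i))) hε.le

theorem CUT : T_CUT := by
  intro d
  refine ⟨CUT_theta d, fun m f => ?_, fun m f x => ?_, fun f x => ?_, fun f => ?_⟩
  · have h1 : (⇑(CUT_theta d m f) : V d → ℝ) = fun x => CUT_chi d m x * f x :=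
      funext fun x => CUT_theta_apply d m f x
    rw [h1]
    exact (CUT_chi_compact d m).mul_right
  · rw [CUT_theta_apply, abs_mul]
    refine mul_le_of_le_one_left (abs_nonneg _) ?_
    show |CUT_th d ((m + 1 : ℝ)⁻¹ • x)| ≤ 1
    rw [abs_of_nonneg ((CUT_th d).nonneg)]
    exact (CUT_th d).le_one
  · refine tendsto_const_nhds.congr' ?_
    obtain ⟨M, hM⟩ := exists_nat_ge ‖x‖
    filter_upwards [eventually_ge_atTop M] with m hm
    have hm0 : (0 : ℝ) < m + 1 := by positivity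
    have hMm : (M : ℝ) ≤ m := by exact_mod_cast hm
    have h1 : CUT_chi d m x = 1 := by
      refine (CUT_th d).one_of_mem_closedBall ?_
      rw [mem_closedBall_zero_iff, norm_smul, norm_inv, Real.norm_of_nonneg hm0.le]
      show _ ≤ (1 : ℝ)
      rw [inv_mul_le_iff₀ hm0, mul_one]
      linarith
    rw [CUT_theta_apply, h1, one_mul]
  · rw [(schwartz_withSeminorms ℝ (V d) ℝ).tendsto_nhds]
    rintro ⟨k, l⟩ ε hε
    obtain ⟨C, hC0, hC⟩ := CUT_seminorm d k l f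
    have h1 : Tendsto (fun m : ℕ => C * (m + 1 : ℝ)⁻¹) atTop (𝓝 (C * 0)) := by
      refine Tendsto.const_mul C ?_
      have := tendsto_one_div_add_atTop_nhds_zero_nat (𝕜 := ℝ)
      simpa [one_div] using this
    rw [mul_zero] at h1
    filter_upwards [h1.eventually (gt_mem_nhds hε)] with m hm
    exact (hC m).trans_lt hm

end

end Pool.Agent.H43.DPC
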