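import Pool.Agent.H43.DPC.Targets

/-! Row FAT of the board `dpc_modules`: condition 2 by the lemma of Fatou. -/

open MeasureTheory SchwartzMap Filter Topology
open scoped ENNReal ContDiff

namespace Pool.Agent.H43.DPC

noncomputable section

/-- the big bump function -/
def FAT_th (d r : ℕ) : ContDiffBump (0 : V d) :=
  ⟨r + 1, r + 2, by positivity, by linarith⟩

/-- the big bump function as a Schwartz function -/
def FAT_phi (d r : ℕ) : S d :=
  (FAT_th d r).hasCompactSupport.toSchwartzMap (FAT_th d r).contDiff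

theorem FAT_phi_apply (d r : ℕ) (x : V d) : FAT_phi d r x = FAT_th d r x := rfl

theorem FAT_phi_compact (d r : ℕ) : HasCompactSupport (FAT_phi d r) :=
  (FAT_th d r).hasCompactSupport

theorem FAT_phi_nonneg (d r : ℕ) (x : V d) : 0 ≤ FAT_phi d r x := (FAT_th d r).nonneg

theorem FAT_phi_le_one (d r : ℕ) (x : V d) : FAT_phi d r x ≤ 1 := (FAT_th d r).le_one

theorem FAT_phi_one (d r : ℕ) (x : V d) (hx : ‖x‖ ≤ r + 1) : FAT_phi d r x = 1 :=
  (FAT_th d r).one_of_mem_closedBall (by rw [mem_closedBall_zero_iff]; exact hx)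

theorem FAT_phi_supp (d r : ℕ) (x : V d) (hx : FAT_phi d r x ≠ 0) (j : Fin d) :
    |x j| ≤ ((r + 2 : ℕ) : ℝ) := by
  by_contra h
  push Not at h
  apply hx
  refine (FAT_th d r).zero_of_le_dist ?_
  rw [dist_zero_right]
  show (r : ℝ) + 2 ≤ ‖x‖
  have h1 : |x j| ≤ ‖x‖ := by
    have := PiLp.norm_apply_le x j
    rwa [Real.norm_eq_abs] at this
  push_cast at h
  linarith

/-- Fatou: a limit of nonnegative functions with bounded integrals is integrable. -/
theorem FAT_fatou {α : Type*} [MeasurableSpace α] (ν : Measure α) (g : ℕ → α → ℝ) (G : α → ℝ)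
    (C : ℝ) (h0 : ∀ m x, 0 ≤ g m x) (hi : ∀ m, Integrable (g m) ν) (hC : ∀ m, ∫ x, g m x ∂ν ≤ C)
    (hG : AEStronglyMeasurable G ν) (hlim : ∀ᵐ x ∂ν, Tendsto (fun m => g m x) atTop (𝓝 (G x))) :
    Integrable G ν := by
  refine ⟨hG, ?_⟩
  have h1 : ∀ᵐ x ∂ν, ‖G x‖ₑ = liminf (fun m => ENNReal.ofReal (g m x)) atTop := by
    filter_upwards [hlim] with x hx
    have h2 : 0 ≤ G x := ge_of_tendsto' hx fun m => h0 m x
    have h3 : Tendsto (fun m => ENNReal.ofReal (g m x)) atTop (𝓝 (ENNReal.ofReal (G x))) :=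
      (ENNReal.continuous_ofReal.tendsto _).comp hx
    rw [h3.liminf_eq, Real.enorm_of_nonneg h2]
  rw [HasFiniteIntegral, lintegral_congr_ae h1]
  refine (lintegral_liminf_le' fun m => (hi m).1.aemeasurable.ennreal_ofReal).trans_lt ?_
  refine lt_of_le_of_lt (b := ENNReal.ofReal C) ?_ ENNReal.ofReal_lt_top
  refine liminf_le_of_frequently_le' (Frequently.of_forall fun m => ?_)
  rw [← ofReal_integral_eq_lintegral_ofReal (hi m) (Eventually.of_forall (h0 m))]
  exact ENNReal.ofReal_le_ofReal (hC m)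

theorem FAT (hLIM : T_LIM) (hSEP : T_SEP) (hWSP : T_WSP) : T_FAT := by
  intro d μ _ hM hT a hS ha n hn s hs hneg
  have hDm : MeasurableSet (Diag d n)ᶜ := (hWSP.isClosed_Diag d n).measurableSet.compl
  have hsc : ContinuousOn s (Diag d n)ᶜ := hs.smooth.continuousOn
  have hsm : AEStronglyMeasurable s (volume.restrict (Diag d n)ᶜ) :=
    hsc.aestronglyMeasurable hDm
  have hpm : AEStronglyMeasurable (fun x => max (s x) 0) (volume.restrict (Diag d n)ᶜ) :=
    (ContinuousOn.sup hsc continuousOn_const).aestronglyMeasurable hDm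
  intro x₀
  obtain ⟨r, hr⟩ := exists_nat_ge ‖x₀‖
  refine ⟨Metric.ball 0 (r + 1), Metric.isOpen_ball.mem_nhds (by
    rw [mem_ball_zero_iff]; linarith), ?_⟩
  set ν : Measure (Fin n → V d) := volume.restrict (Diag d n)ᶜ with hν
  set f : Fin n → S d := fun _ => FAT_phi d r with hf
  set F : (Fin n → V d) → ℝ := fun x => ∏ i, f i (x i) with hF
  have hF0 : ∀ x, 0 ≤ F x := fun x => Finset.prod_nonneg fun i _ => FAT_phi_nonneg d r _
  have hFc : Continuous F := by
    rw [hF]
    exact continuous_finsetProd _ fun i _ => (f i).continuous.comp (continuous_apply i)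
  have hFsupp : ∀ x, F x ≠ 0 → ∀ i, FAT_phi d r (x i) ≠ 0 := fun x hx i hi => by
    apply hx
    exact Finset.prod_eq_zero (Finset.mem_univ i) hi
  have hFK : HasCompactSupport F := by
    refine HasCompactSupport.intro (isCompact_univ_pi fun _ : Fin n =>
      (FAT_phi_compact d r)) fun x hx => ?_
    by_contra h
    apply hx
    intro i _
    exact subset_tsupport _ (hFsupp x h i)
  have hF1 : ∀ x ∈ Metric.ball (0 : Fin n → V d) (r + 1), F x = 1 := by
    intro x hx
    refine Finset.prod_eq_one fun i _ => FAT_phi_one d r _ ?_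
    rw [mem_ball_zero_iff] at hx
    exact (norm_le_pi_norm x i).trans hx.le
  -- the integrals of the separated parts are bounded
  have hsep := fun m => hSEP d μ n s hs (r + 2) m f (fun i => FAT_phi_compact d r)
  have hlim := hLIM d μ hM hT a hS ha n hn (r + 2) f
    (fun i x hx j => by exact_mod_cast FAT_phi_supp d r x hx j)
  have hbd : ∃ C, ∀ m, ∫ x in (Diag d n)ᶜ, s x * (∏ i, f i (x i)) * wsep d n (r + 2) m x ≤ C := by
    obtain ⟨C, hC⟩ := hlim.bddAbove_range
    refine ⟨C, fun m => ?_⟩
    rw [← (hsep m).2]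
    exact hC ⟨m, rfl⟩
  obtain ⟨C, hC⟩ := hbd
  -- the negative part
  have hNF : Integrable (fun x => F x * max (-(s x)) 0) ν :=
    hneg.integrable_smul_left_of_hasCompactSupport hFc hFK
  have hNw : ∀ m, Integrable (fun x => F x * max (-(s x)) 0 * wsep d n (r + 2) m x) ν := by
    intro m
    refine hNF.mono (hNF.1.mul (hWSP.continuous d n (r + 2) m).aestronglyMeasurable)
      (Eventually.of_forall fun x => ?_)
    rw [norm_mul]
    refine mul_le_of_le_one_right (norm_nonneg _) ?_
    rw [Real.norm_of_nonneg (hWSP.nonneg d n (r + 2) m x)]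
    exact hWSP.le_one d n (r + 2) m x
  have hdec : ∀ x, max (s x) 0 = s x + max (-(s x)) 0 := by
    intro x
    rcases le_total (s x) 0 with h | h
    · rw [max_eq_right h, max_eq_left (by linarith)]; ring
    · rw [max_eq_left h, max_eq_right (by linarith)]; ring
  have hPw : ∀ m, Integrable (fun x => max (s x) 0 * F x * wsep d n (r + 2) m x) ν := by
    intro m
    refine ((hsep m).1.add (hNw m)).congr (Eventually.of_forall fun x => ?_)
    show s x * (∏ i, f i (x i)) * wsep d n (r + 2) m x +
      F x * max (-(s x)) 0 * wsep d n (r + 2) m x = max (s x) 0 * F x * wsep d n (r + 2) m x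
    rw [hdec]
    show s x * F x * wsep d n (r + 2) m x + _ = _
    ring
  have hPC : ∀ m, ∫ x, max (s x) 0 * F x * wsep d n (r + 2) m x ∂ν ≤
      C + ∫ x, F x * max (-(s x)) 0 ∂ν := by
    intro m
    have h1 : ∫ x, max (s x) 0 * F x * wsep d n (r + 2) m x ∂ν =
        (∫ x, s x * (∏ i, f i (x i)) * wsep d n (r + 2) m x ∂ν) +
          ∫ x, F x * max (-(s x)) 0 * wsep d n (r + 2) m x ∂ν := by
      rw [← integral_add (hsep m).1 (hNw m)]
      refine integral_congr_ae (Eventually.of_forall fun x => ?_)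
      show max (s x) 0 * F x * wsep d n (r + 2) m x = s x * F x * wsep d n (r + 2) m x +
        F x * max (-(s x)) 0 * wsep d n (r + 2) m x
      rw [hdec]
      ring
    rw [h1]
    refine add_le_add (hC m) (integral_mono (hNw m) hNF fun x => ?_)
    exact mul_le_of_le_one_right (mul_nonneg (hF0 x) (le_max_right _ _))
      (hWSP.le_one d n (r + 2) m x)
  have hP : Integrable (fun x => max (s x) 0 * F x) ν := by
    refine FAT_fatou ν (fun m x => max (s x) 0 * F x * wsep d n (r + 2) m x) _
      (C + ∫ x, F x * max (-(s x)) 0 ∂ν) (fun m x => mul_nonneg (mul_nonneg (le_max_right _ _)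
        (hF0 x)) (hWSP.nonneg d n (r + 2) m x)) hPw hPC
      (hpm.mul hFc.aestronglyMeasurable) ?_
    rw [hν, ae_restrict_iff' hDm]
    refine Eventually.of_forall fun x hx => ?_
    by_cases hFx : F x = 0
    · simp [hFx]
    · have h1 := hWSP.eventually_eq_one d n (r + 2) x hx
        (fun i j => by exact_mod_cast FAT_phi_supp d r (x i) (hFsupp x hFx i) j)
      refine tendsto_const_nhds.congr' ?_
      filter_upwards [h1] with m hm
      rw [hm, mul_one]
  have hsF : Integrable (fun x => s x * F x) ν := by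
    refine (hP.sub hNF).congr (Eventually.of_forall fun x => ?_)
    show max (s x) 0 * F x - F x * max (-(s x)) 0 = s x * F x
    rw [hdec]
    ring
  refine (hsF.integrableOn (s := Metric.ball 0 (r + 1))).congr_fun (fun x hx => ?_)
    measurableSet_ball
  show s x * F x = s x
  rw [hF1 x hx, mul_one]

end

end Pool.Agent.H43.DPC
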